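import Pool.Agent.OLD.AlmostAll

/-!
Open locating-dominating sets of almost all cubic graphs.
-/

namespace Pool.Agent.Results.MP_3363dc_co.AlmostAll

open Pool.Agent.OLD

open scoped Classical in
/-- Among the labelled cubic graphs on `n` vertices, all but a proportion tending to `0` have no
open twins and have an open locating-dominating set with at most `(1199 / 2000) n` vertices. -/
theorem result (ε : ℝ) (hε : 0 < ε) : ∃ N : ℕ, ∀ n ≥ N,
    (1 - ε) * (Finset.univ.filter fun H : SimpleGraph (Fin n) =>
        ∀ v, H.degree v = 3).card ≤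
      ((Finset.univ.filter fun H : SimpleGraph (Fin n) =>
        (∀ v, H.degree v = 3) ∧ ¬ HasTwins H ∧
          ∃ S : Finset (Fin n), IsOLD H S ∧ 2000 * S.card ≤ 1199 * n).card : ℝ) := by
  obtain ⟨N, hN⟩ := almost_all ε hε
  refine ⟨N, fun n hn => ?_⟩
  have h := hN n hn
  have h1 : cub n ∅ = Finset.univ.filter fun H : SimpleGraph (Fin n) => ∀ v, H.degree v = 3 := by
    unfold cub
    ext H
    simp
  rw [h1, Finset.filter_filter] at h
  exact h

end Pool.Agent.Results.MP_3363dc_co.AlmostAll
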