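import Pool.Agent.OLD.Final

/-!
Open locating-dominating sets of cubic graphs with few short cycles.
-/

namespace Pool.Agent.Results.MP_3363dc_co.FewShortCycles

open Pool.Agent.OLD

open scoped Classical in
/-- Every finite cubic graph `G` without open twins has an open locating-dominating set `S` with
`2072 |S| ≤ 1242 n + 835 b`, where `n` is the order of `G` and `b` is the number of vertices at
distance at most `10` from a cycle of length at most `20`. -/
theorem result {V : Type*} [Fintype V] (G : SimpleGraph V) (hG : G.IsRegularOfDegree 3)
    (ht : ¬ HasTwins G) :
    ∃ S : Finset V, IsOLD G S ∧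
      2072 * S.card ≤ 1242 * Fintype.card V + 835 * Fintype.card {x : V // NearShort G x} :=
  main hG ht

end Pool.Agent.Results.MP_3363dc_co.FewShortCycles
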