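import Pool.Agent.OC4.Final

/-!
Open locating-dominating sets of cubic graphs without 4-cycles.
-/

namespace Pool.Agent.Results.MP_3363dc_co.FourCycleFree

open Pool.Agent.OLD

theorem noC4 {V : Type*} (G : SimpleGraph V)
    (hC : ∀ (v : V) (c : G.Walk v v), c.IsCycle → c.length ≠ 4) : Pool.Agent.OC4.C4F G := by
  intro l l' x y h1 h2 h3 h4 hxy
  by_contra hll
  refine hC l (SimpleGraph.Walk.cons h1 (SimpleGraph.Walk.cons h3.symm
    (SimpleGraph.Walk.cons h4 (SimpleGraph.Walk.cons h2.symm SimpleGraph.Walk.nil)))) ?_ rfl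
  have a1 := h1.ne
  have a2 := h2.ne
  have a3 := h3.ne
  have a4 := h4.ne
  have a5 : l' ≠ l := Ne.symm hll
  rw [SimpleGraph.Walk.cons_isCycle_iff]
  constructor
  · simp only [SimpleGraph.Walk.cons_isPath_iff, SimpleGraph.Walk.support_cons,
      SimpleGraph.Walk.support_nil, List.mem_cons, List.not_mem_nil, or_false, not_or]
    refine ⟨⟨⟨SimpleGraph.Walk.IsPath.nil, ?_⟩, ?_, ?_⟩, ?_, ?_, ?_⟩
    · exact a2.symm
    · exact a4
    · exact a5
    · exact a3.symm
    · exact hxy
    · exact a1.symm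
  · simp only [SimpleGraph.Walk.edges_cons, SimpleGraph.Walk.edges_nil, List.mem_cons,
      List.not_mem_nil, or_false, Sym2.eq_iff, not_or]
    tauto

open scoped Classical in
/-- Every finite cubic graph `G` without cycles of length four has an open locating-dominating set
`S` with `20 |S| ≤ 13 n`, where `n` is the order of `G`. -/
theorem result {V : Type*} [Fintype V] (G : SimpleGraph V) (hG : G.IsRegularOfDegree 3)
    (hC : ∀ (v : V) (c : G.Walk v v), c.IsCycle → c.length ≠ 4) :
    ∃ S : Finset V, IsOLD G S ∧ 20 * S.card ≤ 13 * Fintype.card V :=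
  Pool.Agent.OC4.main G hG (noC4 G hC)

end Pool.Agent.Results.MP_3363dc_co.FourCycleFree
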