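import Pool.Agent.OLD57.Final

/-!
Open locating-dominating sets of connected cubic graphs: the sharp bound `5n/7`.
-/

namespace Pool.Agent.Results.MP_3363dc_co.SharpAllCubic

open Pool.Agent.OLD57

/-- (1) Every connected cubic graph `G` without open twins that is not isomorphic to the complete
graph with four vertices or to the cube has an open locating-dominating set `S` with
`7 |S| ≤ 5 n`, where `n` is the order of `G`; if `n ≥ 15` then moreover `500 |S| ≤ 357 n`.
(2) The bound `5n/7` is attained: the Moebius ladder `M14` with 14 vertices is connected, cubic and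
has no open twins, and each of its open locating-dominating sets has at least 10 vertices. -/
theorem result :
    (∀ (V : Type) [Fintype V] [DecidableEq V] (G : SimpleGraph V) [DecidableRel G.Adj],
      G.Connected → G.IsRegularOfDegree 3 →
      (∀ u v : V, G.neighborSet u = G.neighborSet v → u = v) →
      ¬ Nonempty (G ≃g (⊤ : SimpleGraph (Fin 4))) → ¬ Nonempty (G ≃g Q3) →
      ∃ S : Finset V, (∀ v : V, ∃ s ∈ S, G.Adj v s) ∧
        (∀ u v : V, u ≠ v → G.neighborSet u ∩ (S : Set V) ≠ G.neighborSet v ∩ (S : Set V)) ∧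
        7 * S.card ≤ 5 * Fintype.card V ∧
        (15 ≤ Fintype.card V → 500 * S.card ≤ 357 * Fintype.card V)) ∧
    (M14.Connected ∧ M14.IsRegularOfDegree 3 ∧
      (∀ u v : Fin 14, M14.neighborSet u = M14.neighborSet v → u = v) ∧
      ∀ S : Finset (Fin 14), (∀ v, ∃ s ∈ S, M14.Adj v s) →
        (∀ u v : Fin 14, u ≠ v →
          M14.neighborSet u ∩ (S : Set (Fin 14)) ≠ M14.neighborSet v ∩ (S : Set (Fin 14))) →
        10 ≤ S.card) := by
  refine ⟨?_, M14_connected, M14_regular, M14_twin, fun S h1 h2 => M14_lower ⟨h1, h2⟩⟩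
  intro V _ _ G _ hG h3 htw hK hQ
  obtain ⟨S, hS, h7, h15⟩ := upper G hG h3 htw hK hQ
  exact ⟨S, hS.1, hS.2, h7, h15⟩

end Pool.Agent.Results.MP_3363dc_co.SharpAllCubic
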